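import Pool.Agent.Q96.NF.PF
import Pool.Agent.Q14.LQ.EF2

set_option autoImplicit false

/-! # Project NF, job EF: the explicit formula, with all zeros -/

namespace Pool.Agent.Q96.NF

open MeasureTheory Complex Filter Topology Set
open Pool.Agent.Q253.NF (Dat S_PF S_EF)
open Pool.Agent.Q14.LQ (XS XS_cont XS_bound XS_int TT TT_pole TT_const TT_GR bk dk dk_sum lt_unique)

theorem bk_pos {a : ℝ} (ha : 0 ≤ a) (k : ℕ) : 1 / 2 ≤ bk a k := by
  unfold bk
  have : (0 : ℝ) ≤ k := Nat.cast_nonneg k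
  linarith

theorem bk_ne {a : ℝ} (ha : a = 0 ∨ a = 1) (k : ℕ) : bk a k - 1 ≠ 0 := by
  intro h
  unfold bk at h
  rcases ha with rfl | rfl
  · have h1 : (4 * k : ℝ) = 1 := by linarith
    have h2 : ((4 * k : ℕ) : ℝ) = ((1 : ℕ) : ℝ) := by push_cast; exact h1
    have h3 : 4 * k = 1 := by exact_mod_cast h2
    omega
  · have h1 : (4 * k : ℝ) + 1 = 0 := by linarith
    have h2 : (0 : ℝ) ≤ k := Nat.cast_nonneg k
    linarith

/-- the coefficients of the sum over the zeros -/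
noncomputable def cz (D : Dat) (a : ℂ) : ℂ := (D.m a : ℂ) * (2 / (1 - a ^ 2))

theorem cz_zero (D : Dat) {a : ℂ} (h : D.m a = 0) : cz D a = 0 := by
  unfold cz
  rw [h]
  simp

/-- the set of the zeros -/
def SZ (D : Dat) : Set ℂ := {a : ℂ | D.m a ≠ 0}

theorem SZ_re (D : Dat) {a : ℂ} (ha : a ∈ SZ D) : |a.re| ≤ 1 / 2 := by
  by_contra h
  exact ha (m_zero D h)

theorem SZ_countable (D : Dat) : (SZ D).Countable := by
  refine (pf_ab D).1.countable_support.mono fun a ha => ?_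
  rw [Function.mem_support]
  refine div_ne_zero ?_ (by positivity)
  have ha' : D.m a ≠ 0 := ha
  exact_mod_cast ha'

theorem cz_bd (D : Dat) : ∃ C : ℝ, ∀ a, ‖cz D a‖ ≤ C * ((D.m a : ℝ) / (1 + ‖a‖ ^ 2)) := by
  obtain ⟨C, hC, hCb⟩ := term_bound 1 (-1) (by norm_num) (by norm_num)
  refine ⟨C, fun a => ?_⟩
  by_cases ha : |a.re| ≤ 1 / 2
  · have e1 : (1 : ℂ) - a ≠ 0 := sub_ne (by norm_num) ha
    have e2 : (-1 : ℂ) - a ≠ 0 := sub_ne (by norm_num) ha
    have e3 : (1 : ℂ) - a ^ 2 ≠ 0 := by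
      have : (1 : ℂ) - a ^ 2 = -((1 - a) * (-1 - a)) := by ring
      rw [this]
      exact neg_ne_zero.2 (mul_ne_zero e1 e2)
    have e4 : 1 / (1 - a) - 1 / (-1 - a) = 2 / (1 - a ^ 2) := by
      rw [div_sub_div _ _ e1 e2, div_eq_div_iff (mul_ne_zero e1 e2) e3]
      ring
    have h1 := hCb a ha
    rw [e4] at h1
    unfold cz
    rw [norm_mul, Complex.norm_natCast]
    calc (D.m a : ℝ) * ‖2 / (1 - a ^ 2)‖ ≤ (D.m a : ℝ) * (C / (1 + ‖a‖ ^ 2)) := by gcongr
      _ = _ := by ring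
  · rw [cz_zero D (m_zero D ha), m_zero D ha]
    simp

theorem cz_sum (D : Dat) : Summable (fun a => ‖cz D a‖) := by
  obtain ⟨C, hC⟩ := cz_bd D
  exact Summable.of_nonneg_of_le (fun _ => norm_nonneg _) hC ((pf_ab D).1.mul_left C)

theorem cz_sum' (D : Dat) : Summable (fun a : SZ D => ‖cz D a‖) := (cz_sum D).subtype _

theorem cz_supp (D : Dat) (f : ℂ → ℂ) : Function.support (fun a : ℂ => cz D a * f a) ⊆ SZ D := by
  intro a ha
  rw [Function.mem_support] at ha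
  intro h0
  exact ha (by rw [cz_zero D h0, zero_mul])

theorem half_re : ((1 : ℂ) / 2).re = 1 / 2 := by norm_num

theorem l_re (D : Dat) (a : SZ D) : 0 ≤ ((1 : ℂ) / 2 - a).re := by
  rw [Complex.sub_re, half_re]
  have := (abs_le.1 (SZ_re D a.2)).2
  linarith

theorem Z_eq (D : Dat) (u : ℝ) : D.Z u = XS (fun a : SZ D => cz D a) (fun a : SZ D => (1 : ℂ) / 2 - a) u *
    cexp (1 / 2 * u) := by
  unfold Dat.Z XS
  have h := tsum_subtype_eq_of_support_subset (cz_supp D (fun a : ℂ => cexp (a * u)))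
  unfold cz at h ⊢
  rw [← h, ← tsum_mul_right]
  refine tsum_congr fun a => ?_
  rw [mul_assoc ((D.m a : ℂ) * _), ← Complex.exp_add]
  congr 2
  ring

theorem Z_cont (D : Dat) : ContinuousOn D.Z (Ioi 0) := by
  have e : D.Z = fun u : ℝ => XS (fun a : SZ D => cz D a) (fun a : SZ D => (1 : ℂ) / 2 - a) u *
    cexp (1 / 2 * u) := funext (Z_eq D)
  rw [e]
  exact (XS_cont (l_re D) (cz_sum' D)).mul
    (by fun_prop : Continuous fun u : ℝ => cexp (1 / 2 * u)).continuousOn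

/-- the transform of the sum over the zeros -/
theorem Z_LT (D : Dat) {z : ℂ} (hz : 1 < z.re) :
    IntegrableOn (fun u : ℝ => D.Z u * cexp (-z * u)) (Ioi 0) ∧
      ∫ u in Ioi (0 : ℝ), D.Z u * cexp (-z * u) = TT (logDeriv D.X) z + (∑' a, cz D a - logDeriv D.X 1) / (1 + z) := by
  have : Countable (SZ D) := (SZ_countable D).to_subtype
  have hzr : 0 < (z - 1 / 2).re := by
    rw [Complex.sub_re, half_re]
    linarith
  have key := XS_int (c := fun a : SZ D => cz D a) (l := fun a : SZ D => (1 : ℂ) / 2 - a) (l_re D) (cz_sum' D) hzr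
  have e0 : (fun u : ℝ => D.Z u * cexp (-z * u)) = fun u : ℝ => XS (fun a : SZ D => cz D a)
      (fun a : SZ D => (1 : ℂ) / 2 - a) u * cexp (-(z - 1 / 2) * u) := by
    funext u
    rw [Z_eq, mul_assoc, ← Complex.exp_add]
    congr 2
    ring
  rw [e0]
  refine ⟨key.1, ?_⟩
  rw [key.2]
  have e1 : ∑' a : SZ D, cz D a / ((1 : ℂ) / 2 - a + (z - 1 / 2)) = ∑' a : ℂ, cz D a / (z - a) := by
    have h := tsum_subtype_eq_of_support_subset (cz_supp D (fun a : ℂ => 1 / (z - a)))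
    have e2 : ∀ a : ℂ, cz D a / (z - a) = cz D a * (1 / (z - a)) := fun a => by ring
    simp_rw [e2]
    rw [← h]
    refine tsum_congr fun a => ?_
    have : (1 : ℂ) / 2 - a + (z - 1 / 2) = z - a := by ring
    rw [this]
    ring
  rw [e1]
  have h1 : z ≠ 1 := by
    rintro rfl
    simp at hz
  have h1' : 1 - z ≠ 0 := sub_ne_zero.2 (Ne.symm h1)
  have h2' : 1 + z ≠ 0 := by
    intro h
    have := congrArg Complex.re h
    simp at this
    linarith
  have h3' : 1 - z ^ 2 ≠ 0 := by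
    have : 1 - z ^ 2 = (1 - z) * (1 + z) := by ring
    rw [this]
    exact mul_ne_zero h1' h2'
  have hz' : 1 / 2 < |z.re| := lt_of_lt_of_le (by linarith) (le_abs_self _)
  have sA : Summable (fun a : ℂ => cz D a / (z - a)) := by
    refine Summable.of_norm_bounded ((cz_sum D).mul_right 2) fun a => ?_
    by_cases ha : |a.re| ≤ 1 / 2
    · rw [norm_div, div_eq_mul_one_div]
      refine mul_le_mul_of_nonneg_left ?_ (norm_nonneg _)
      have h4 := Complex.re_le_norm (z - a)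
      rw [Complex.sub_re] at h4
      have h5 := (abs_le.1 ha).2
      rw [div_le_iff₀ (norm_pos_iff.2 (sub_ne hz' ha))]
      linarith
    · rw [cz_zero D (m_zero D ha)]
      simp
  have sB : Summable (fun a : ℂ => cz D a) := (cz_sum D).of_norm
  have hT : ∀ a : ℂ, (D.m a : ℂ) * (1 / (z - a) - 1 / (1 - a)) =
      (1 - z ^ 2) / 2 * (cz D a / (z - a) - 1 / (1 + z) * cz D a) := by
    intro a
    by_cases ha : |a.re| ≤ 1 / 2
    · have n1 : z - a ≠ 0 := sub_ne hz' ha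
      have n2 : (1 : ℂ) - a ≠ 0 := sub_ne (by norm_num) ha
      have n3 : (-1 : ℂ) - a ≠ 0 := sub_ne (by norm_num) ha
      have n4 : (1 : ℂ) + a ≠ 0 := by
        intro h
        apply n3
        linear_combination -h
      unfold cz
      generalize (D.m a : ℂ) = m
      have e5 : (1 : ℂ) - a ^ 2 = (1 - a) * (1 + a) := by ring
      rw [e5]
      field_simp
      ring
    · rw [cz_zero D (m_zero D ha), m_zero D ha]
      simp
  have hd := (pf_ab D).2 z 1 hz' (by norm_num)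
  rw [tsum_congr hT, tsum_mul_left, Summable.tsum_sub sA (sB.mul_left _), tsum_mul_left] at hd
  unfold TT
  have hX : logDeriv D.X z = logDeriv D.X 1 + (1 - z ^ 2) / 2 * (∑' a : ℂ, cz D a / (z - a) - 1 / (1 + z) * ∑' a, cz D a) := by
    rw [← hd]
    ring
  rw [hX]
  generalize ∑' a : ℂ, cz D a / (z - a) = U
  generalize ∑' a : ℂ, cz D a = W
  have e1 : 1 - z ^ 2 = (1 - z) * (1 + z) := by ring
  rw [e1]
  field_simp
  ring

/-- the transform of the sum over the prime powers -/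
theorem S_TT (D : Dat) : ∃ K : ℂ, ∀ z : ℂ, 1 < z.re → TT D.S z = K / (1 + z) +
    (D.m0 : ℂ) * ∑' k : ℕ, dk 0 k / (((bk 0 k : ℝ) : ℂ) + z) + (D.m1 : ℂ) * ∑' k : ℕ, dk 1 k / (((bk 1 k : ℝ) : ℂ) + z) +
    (D.p : ℂ) * (8 / 3 / (1 / 2 + z) + 8 / 3 / (-(1 / 2) + z)) - TT (logDeriv D.X) z := by
  obtain ⟨K0, hK0⟩ := TT_GR (a := 0) le_rfl zero_le_one (bk_ne (Or.inl rfl))
  obtain ⟨K1, hK1⟩ := TT_GR (a := 1) zero_le_one le_rfl (bk_ne (Or.inr rfl))
  refine ⟨D.A + D.m0 * K0 + D.m1 * K1 - D.p * (8 / 3), fun z hz => ?_⟩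
  have h1 : z ≠ 1 := by
    rintro rfl
    simp at hz
  have h1' : 1 - z ≠ 0 := sub_ne_zero.2 (Ne.symm h1)
  have h2' : 1 + z ≠ 0 := by
    intro h
    have := congrArg Complex.re h
    simp at this
    linarith
  have h3' : -(1 / 2) + z ≠ 0 := by
    intro h
    have := congrArg Complex.re h
    rw [Complex.add_re, Complex.neg_re, half_re] at this
    simp at this
    linarith
  have h4' : 1 / 2 + z ≠ 0 := by
    intro h
    have := congrArg Complex.re h
    rw [Complex.add_re, half_re] at this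
    simp at this
    linarith
  have t0 := hK0 z (by linarith) h1
  have t0' := hK1 z (by linarith) h1
  have x1 := D.ld z (by linarith)
  have x2 := D.ld 1 (by norm_num)
  have t1 := TT_pole (b := 1 / 2) (z := z) h4' (by norm_num) (by norm_num) h1' h2'
  have t2 := TT_pole (b := -(1 / 2)) (z := z) h3' (by norm_num) (by norm_num) h1' h2'
  have t3 := TT_const (K := (D.A : ℂ)) h1' h2'
  have g0 : ∀ w : ℂ, (1 / 2 + w + ((0 : ℝ) : ℂ)) = 1 / 2 + w := fun w => by push_cast; ring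
  have g1 : ∀ w : ℂ, (1 / 2 + w + ((1 : ℝ) : ℂ)) = 3 / 2 + w := fun w => by push_cast; ring
  have p0 : ∀ w : ℂ, w + 1 / 2 = 1 / 2 + w := fun w => add_comm _ _
  have p1 : ∀ w : ℂ, w - 1 / 2 = -(1 / 2) + w := fun w => by ring
  simp only [g0] at t0
  simp only [g1] at t0'
  rw [p0, p1] at x1 x2
  have hS : TT D.S z = TT (fun _ => (D.A : ℂ)) z + D.m0 * TT (fun z => logDeriv Gammaℝ (1 / 2 + z)) z +
      D.m1 * TT (fun z => logDeriv Gammaℝ (3 / 2 + z)) z +
      D.p * (TT (fun z => 1 / (1 / 2 + z)) z + TT (fun z => 1 / (-(1 / 2) + z)) z) - TT (logDeriv D.X) z := by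
    unfold TT
    beta_reduce
    rw [x1, x2]
    ring
  rw [hS, t0, t0', t1, t2, t3]
  have e1 : (1 : ℂ) / (1 / 2 - 1) = -2 := by norm_num
  have e2 : (2 : ℂ) / ((1 / 2) ^ 2 - 1) = -(8 / 3) := by norm_num
  have e3 : (1 : ℂ) / (-(1 / 2) - 1) = -(2 / 3) := by norm_num
  have e4 : (2 : ℂ) / ((-(1 / 2)) ^ 2 - 1) = -(8 / 3) := by norm_num
  rw [e1, e2, e3, e4]
  ring

theorem formula (D : Dat) : ∃ A : ℂ, ∀ u : ℝ, 0 < u → D.P u + D.Z u =
    A * cexp (-1 * u) + (D.p * (8 / 3)) * cexp (-(1 / 2) * u) + D.m0 * XS (dk 0) (fun k => ((bk 0 k : ℝ) : ℂ)) u +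
      D.m1 * XS (dk 1) (fun k => ((bk 1 k : ℝ) : ℂ)) u := by
  obtain ⟨K, hK⟩ := S_TT D
  obtain ⟨A, hA⟩ : ∃ A : ℂ, A = K + (∑' a, cz D a - logDeriv D.X 1) := ⟨_, rfl⟩
  refine ⟨A, fun u hu => ?_⟩
  have hl : ∀ a : ℝ, 0 ≤ a → ∀ k : ℕ, 0 ≤ (((bk a k : ℝ) : ℂ)).re := fun a ha k => by
    rw [Complex.ofReal_re]
    linarith [bk_pos ha k]
  obtain ⟨g, hg⟩ : ∃ g : ℝ → ℂ, g = fun u => (D.P u + D.Z u) -
    (A * cexp (-1 * u) + (D.p * (8 / 3)) * cexp (-(1 / 2) * u) + D.m0 * XS (dk 0) (fun k => ((bk 0 k : ℝ) : ℂ)) u +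
      D.m1 * XS (dk 1) (fun k => ((bk 1 k : ℝ) : ℂ)) u) := ⟨_, rfl⟩
  have hPc : Continuous D.P := by
    unfold Dat.P
    refine D.cont.sub (continuous_const.mul ?_)
    exact Complex.continuous_ofReal.comp (by fun_prop)
  have hgc : ContinuousOn g (Ioi 0) := by
    rw [hg]
    refine ContinuousOn.sub (hPc.continuousOn.add (Z_cont D)) (ContinuousOn.add (ContinuousOn.add ?_ ?_) ?_)
    · exact (by fun_prop : Continuous fun u : ℝ => A * cexp (-1 * u) + (D.p * (8 / 3)) * cexp (-(1 / 2) * u)).continuousOn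
    · exact continuousOn_const.mul (XS_cont (hl 0 le_rfl) (dk_sum le_rfl))
    · exact continuousOn_const.mul (XS_cont (hl 1 zero_le_one) (dk_sum zero_le_one))
  -- the transforms
  have key : ∀ z : ℂ, 1 < z.re → IntegrableOn (fun u : ℝ => g u * cexp (-z * u)) (Ioi 0) ∧
      ∫ u in Ioi (0 : ℝ), g u * cexp (-z * u) = 0 := by
    intro z hz
    have h2' : 1 + z ≠ 0 := by
      intro h
      have := congrArg Complex.re h
      simp at this
      linarith
    obtain ⟨i1, j1⟩ := D.lt z hz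
    have j1' : ∫ u in Ioi (0 : ℝ), D.E u * cexp (-z * u) = TT D.S z := by
      rw [j1]
      rfl
    have iexp : ∀ b : ℂ, 0 < (b + z).re → IntegrableOn (fun u : ℝ => cexp (-b * u) * cexp (-z * u)) (Ioi 0) ∧
        ∫ u in Ioi (0 : ℝ), cexp (-b * u) * cexp (-z * u) = 1 / (b + z) := by
      intro b hb
      have e1 : ∀ u : ℝ, cexp (-b * u) * cexp (-z * u) = cexp (-(b + z) * u) := by
        intro u
        rw [← Complex.exp_add]
        congr 1
        ring
      simp_rw [e1]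
      have hb' : (-(b + z)).re < 0 := by
        rw [Complex.neg_re]
        linarith
      refine ⟨integrableOn_exp_mul_complex_Ioi hb' 0, ?_⟩
      rw [integral_exp_mul_complex_Ioi hb', Complex.ofReal_zero, mul_zero, Complex.exp_zero,
        neg_div_neg_eq]
    obtain ⟨i2, j2⟩ := iexp (-(1 / 2)) (by
      rw [Complex.add_re, Complex.neg_re, half_re]
      linarith)
    obtain ⟨i3, j3⟩ := Z_LT D hz
    obtain ⟨i4, j4⟩ := iexp 1 (by
      rw [Complex.add_re, Complex.one_re]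
      linarith)
    obtain ⟨i5, j5⟩ := iexp (1 / 2) (by
      rw [Complex.add_re, half_re]
      linarith)
    obtain ⟨i6, j6⟩ := XS_int (hl 0 le_rfl) (dk_sum le_rfl) (z := z) (by linarith)
    obtain ⟨i7, j7⟩ := XS_int (hl 1 zero_le_one) (dk_sum zero_le_one) (z := z) (by linarith)
    have e1 : (fun u : ℝ => g u * cexp (-z * u)) = fun u : ℝ =>
        ((D.E u * cexp (-z * u) - (D.p * (8 / 3)) * (cexp (-(-(1 / 2)) * u) * cexp (-z * u))) +
          D.Z u * cexp (-z * u)) -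
        (((A * (cexp (-1 * u) * cexp (-z * u)) + (D.p * (8 / 3)) * (cexp (-(1 / 2) * u) * cexp (-z * u))) +
          D.m0 * (XS (dk 0) (fun k => ((bk 0 k : ℝ) : ℂ)) u * cexp (-z * u))) +
          D.m1 * (XS (dk 1) (fun k => ((bk 1 k : ℝ) : ℂ)) u * cexp (-z * u))) := by
      funext u
      have e2 : ((8 / 3 * Real.exp (u / 2) : ℝ) : ℂ) = 8 / 3 * cexp (-(-(1 / 2)) * u) := by
        push_cast
        congr 2
        ring
      simp only [hg, Dat.P]
      rw [e2]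
      ring
    have I12 := i1.sub (i2.const_mul ((D.p : ℂ) * (8 / 3)))
    have I45 := (i4.const_mul A).add (i5.const_mul ((D.p : ℂ) * (8 / 3)))
    have I456 := I45.add (i6.const_mul (D.m0 : ℂ))
    have I4567 := I456.add (i7.const_mul (D.m1 : ℂ))
    refine ⟨?_, ?_⟩
    · rw [e1]
      exact (I12.add i3).sub I4567
    · rw [e1]
      have E1 := integral_sub (I12.add i3) I4567
      have E2 := integral_add I12 i3
      have E3 := integral_add I45 (i6.const_mul (D.m0 : ℂ))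
      have E3' := integral_add I456 (i7.const_mul (D.m1 : ℂ))
      have E4 := integral_sub i1 (i2.const_mul ((D.p : ℂ) * (8 / 3)))
      have E5 := integral_add (i4.const_mul A) (i5.const_mul ((D.p : ℂ) * (8 / 3)))
      refine E1.trans ?_
      refine (congrArg₂ (fun x y => x - y) E2 E3').trans ?_
      refine (congrArg₂ (fun x y => x - y) (congrArg₂ (fun x y => x + y) E4 rfl)
        (congrArg₂ (fun x y => x + y) (E3.trans (congrArg₂ (fun x y => x + y) E5 rfl)) rfl)).trans ?_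
      rw [integral_const_mul, integral_const_mul, integral_const_mul, integral_const_mul, integral_const_mul,
        j1', j2, j3, j4, j5, j6, j7, hK z hz, hA]
      ring
  have hz2 : (1 : ℝ) < (((2 : ℝ) : ℂ)).re := by
    rw [Complex.ofReal_re]
    norm_num
  have h0 := lt_unique (σ := 2) hgc (key _ hz2).1 (fun y => (key (((2 : ℝ) : ℂ) + y * I) (by simp)).2) hu
  rw [hg] at h0
  exact sub_eq_zero.1 h0

/-- NF-EF -/
theorem ef : S_EF := by
  intro D
  obtain ⟨A, hform⟩ := formula D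
  have hl : ∀ a : ℝ, 0 ≤ a → ∀ k : ℕ, 1 / 4 ≤ (((bk a k : ℝ) : ℂ)).re := fun a ha k => by
    rw [Complex.ofReal_re]
    linarith [bk_pos ha k]
  obtain ⟨S0, hS0⟩ : ∃ S0 : ℝ, S0 = ∑' k, ‖dk 0 k‖ := ⟨_, rfl⟩
  obtain ⟨S1, hS1⟩ : ∃ S1 : ℝ, S1 = ∑' k, ‖dk 1 k‖ := ⟨_, rfl⟩
  have hS00 : 0 ≤ S0 := by rw [hS0]; exact tsum_nonneg fun k => norm_nonneg _
  have hS10 : 0 ≤ S1 := by rw [hS1]; exact tsum_nonneg fun k => norm_nonneg _
  obtain ⟨C0, hC0⟩ : ∃ C0 : ℝ, C0 = ‖D.P 0 + D.Z 0‖ := ⟨_, rfl⟩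
  have hC00 : 0 ≤ C0 := by rw [hC0]; exact norm_nonneg _
  refine ⟨C0 + (‖A‖ + ‖(D.p : ℂ) * (8 / 3)‖ + D.m0 * S0 + D.m1 * S1), fun u hu => ?_⟩
  rcases hu.eq_or_lt with rfl | hu0
  · have e : Real.exp (-(0 / 4)) = 1 := by simp
    rw [e, mul_one, hC0]
    have : 0 ≤ ‖A‖ + ‖(D.p : ℂ) * (8 / 3)‖ + D.m0 * S0 + D.m1 * S1 := by positivity
    linarith
  · rw [hform u hu0]
    have hexp : ∀ b : ℝ, 1 / 4 ≤ b → Real.exp (-(b * u)) ≤ Real.exp (-(u / 4)) := by
      intro b hb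
      refine Real.exp_le_exp.2 ?_
      nlinarith
    have n1 : ‖A * cexp (-1 * u)‖ ≤ ‖A‖ * Real.exp (-(u / 4)) := by
      rw [norm_mul, Complex.norm_exp]
      refine mul_le_mul_of_nonneg_left ?_ (norm_nonneg _)
      have e : (-1 * (u : ℂ)).re = -(1 * u) := by simp
      rw [e]
      exact hexp 1 (by norm_num)
    have n2 : ‖(D.p * (8 / 3)) * cexp (-(1 / 2) * u)‖ ≤ ‖(D.p : ℂ) * (8 / 3)‖ * Real.exp (-(u / 4)) := by
      rw [norm_mul, Complex.norm_exp]
      refine mul_le_mul_of_nonneg_left ?_ (norm_nonneg _)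
      have e : (-(1 / 2) * (u : ℂ)).re = -(1 / 2 * u) := by
        rw [Complex.re_mul_ofReal, Complex.neg_re, half_re]
        ring
      rw [e]
      exact hexp (1 / 2) (by norm_num)
    have n3 : ‖(D.m0 : ℂ) * XS (dk 0) (fun k => ((bk 0 k : ℝ) : ℂ)) u‖ ≤ D.m0 * S0 * Real.exp (-(u / 4)) := by
      have h3 := XS_bound (hl 0 le_rfl) (dk_sum le_rfl) hu
      have e : Real.exp (-(1 / 4 * u)) = Real.exp (-(u / 4)) := by
        congr 1
        ring
      rw [e, ← hS0] at h3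
      rw [norm_mul, Complex.norm_natCast, mul_assoc]
      exact mul_le_mul_of_nonneg_left h3 (Nat.cast_nonneg _)
    have n4 : ‖(D.m1 : ℂ) * XS (dk 1) (fun k => ((bk 1 k : ℝ) : ℂ)) u‖ ≤ D.m1 * S1 * Real.exp (-(u / 4)) := by
      have h3 := XS_bound (hl 1 zero_le_one) (dk_sum zero_le_one) hu
      have e : Real.exp (-(1 / 4 * u)) = Real.exp (-(u / 4)) := by
        congr 1
        ring
      rw [e, ← hS1] at h3
      rw [norm_mul, Complex.norm_natCast, mul_assoc]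
      exact mul_le_mul_of_nonneg_left h3 (Nat.cast_nonneg _)
    have h1 := norm_add_le (A * cexp (-1 * u) + (D.p * (8 / 3)) * cexp (-(1 / 2) * u) +
      D.m0 * XS (dk 0) (fun k => ((bk 0 k : ℝ) : ℂ)) u) (D.m1 * XS (dk 1) (fun k => ((bk 1 k : ℝ) : ℂ)) u)
    have h2 := norm_add_le (A * cexp (-1 * u) + (D.p * (8 / 3)) * cexp (-(1 / 2) * u))
      (D.m0 * XS (dk 0) (fun k => ((bk 0 k : ℝ) : ℂ)) u)
    have h3 := norm_add_le (A * cexp (-1 * u)) ((D.p * (8 / 3)) * cexp (-(1 / 2) * u))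
    have h4 : 0 ≤ C0 * Real.exp (-(u / 4)) := by positivity
    have e : (C0 + (‖A‖ + ‖(D.p : ℂ) * (8 / 3)‖ + D.m0 * S0 + D.m1 * S1)) * Real.exp (-(u / 4)) =
      C0 * Real.exp (-(u / 4)) + (‖A‖ * Real.exp (-(u / 4)) + ‖(D.p : ℂ) * (8 / 3)‖ * Real.exp (-(u / 4)) +
        D.m0 * S0 * Real.exp (-(u / 4)) + D.m1 * S1 * Real.exp (-(u / 4))) := by
      ring
    rw [e]
    linarith

end Pool.Agent.Q96.NF
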