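import Pool.Agent.Q253.NF.Stm
import Pool.Agent.Q151.LQ.PFg

set_option autoImplicit false

/-!
# Project NF, job PF: partial fractions, zeros in the strip, growth slower than all `exp (δ |z|²)`
-/

namespace Pool.Agent.Q96.NF

open Complex Filter Topology Metric Set
open Pool.Agent.Y275.GL (base1)
open Pool.Agent.Q151.LQ (div_fin fin_zeros ord_fin)
open Pool.Agent.Q253.NF (Dat S_PF)

/-- one step: all the zeros in the disc of radius `N + 1` about `p` -/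
theorem had_step {X : ℂ → ℂ} (hX : Differentiable ℂ X) (p : ℂ) (hp : X p ≠ 0) (N : ℕ) {B : ℝ}
    (hb : ∀ z, ‖z - p‖ = 2 * ((N : ℝ) + 1) → ‖X z‖ ≤ Real.exp B) :
    ∃ (S : Finset ℂ) (β : ℂ) (E : ℂ → ℂ), (∀ z, z ∈ S ↔ X z = 0 ∧ ‖z - p‖ ≤ (N : ℝ) + 1) ∧
      ∀ z : ℂ, ‖z - p‖ < ((N : ℝ) + 1) / 2 →
        X z = X p * (∏ a ∈ S, ((z - a) / (p - a)) ^ analyticOrderNatAt X a) * cexp (β * (z - p)) * cexp (E z) ∧
        ‖E z‖ ≤ 16 * (B + |Real.log ‖X p‖|) * (‖z - p‖ / ((N : ℝ) + 1)) ^ 2 := by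
  have hρ : 0 < (N : ℝ) + 1 := by positivity
  obtain ⟨ρ, hρd⟩ : ∃ ρ : ℝ, ρ = (N : ℝ) + 1 := ⟨_, rfl⟩
  rw [← hρd] at hρ hb ⊢
  have hne : ∃ z, X z ≠ 0 := ⟨p, hp⟩
  have hfinS := fin_zeros hX hne p ρ
  obtain ⟨S, hS⟩ : ∃ S : Finset ℂ, ∀ z, z ∈ S ↔ X z = 0 ∧ ‖z - p‖ ≤ ρ :=
    ⟨hfinS.toFinset, fun z => by rw [Set.Finite.mem_toFinset]; rfl⟩
  obtain ⟨G, hG, hXG, hGS⟩ := div_fin hX (ord_fin hX hne) S
  obtain ⟨P, hP⟩ : ∃ P : ℂ → ℂ, P = fun z => ∏ a ∈ S, (z - a) ^ analyticOrderNatAt X a := ⟨_, rfl⟩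
  have hPe : ∀ z, P z = ∏ a ∈ S, (z - a) ^ analyticOrderNatAt X a := fun z => by rw [hP]
  have hXG' : ∀ z, X z = P z * G z := fun z => by rw [hPe, hXG z]
  have hPp : P p ≠ 0 := fun h => hp (by rw [hXG', h, zero_mul])
  have hGp : G p ≠ 0 := fun h => hp (by rw [hXG', h, mul_zero])
  have hGnz : ∀ z ∈ ball p ρ, G z ≠ 0 := by
    intro z hz h0
    rw [mem_ball, dist_eq_norm] at hz
    have hz0 : X z = 0 := by rw [hXG', h0, mul_zero]
    exact hGS z ((hS z).2 ⟨hz0, hz.le⟩) h0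
  have hPn : ∀ z, ‖z - p‖ = 2 * ρ → ‖P p‖ ≤ ‖P z‖ := by
    intro z hz
    rw [hPe, hPe, norm_prod, norm_prod]
    refine Finset.prod_le_prod (fun a _ => norm_nonneg _) fun a ha => ?_
    rw [norm_pow, norm_pow]
    refine pow_le_pow_left₀ (norm_nonneg _) ?_ _
    have h1 := ((hS a).1 ha).2
    have h2 : ‖z - p‖ ≤ ‖z - a‖ + ‖a - p‖ := by
      have := norm_add_le (z - a) (a - p)
      rwa [sub_add_sub_cancel] at this
    rw [norm_sub_rev p a]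
    linarith
  have hXp0 : 0 < ‖X p‖ := norm_pos_iff.2 hp
  have hGp0 : 0 < ‖G p‖ := norm_pos_iff.2 hGp
  have hGb : ∀ z ∈ ball p ρ, ‖G z‖ ≤ Real.exp (B + Real.log ‖G p‖ - Real.log ‖X p‖) := by
    intro z hz
    refine Complex.norm_le_of_forall_mem_frontier_norm_le (U := ball p (2 * ρ)) isBounded_ball
      hG.diffContOnCl ?_ (subset_closure (ball_subset_ball (by linarith) hz))
    intro y hy
    rw [frontier_ball p (by positivity), mem_sphere, dist_eq_norm] at hy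
    have h1 := hPn y hy
    have h2 : ‖X y‖ = ‖P y‖ * ‖G y‖ := by rw [hXG', norm_mul]
    have h3 : ‖X p‖ = ‖P p‖ * ‖G p‖ := by rw [hXG', norm_mul]
    have h4 := hb y hy
    rw [Real.exp_sub, Real.exp_add, Real.exp_log hGp0, Real.exp_log hXp0, le_div_iff₀ hXp0, h3]
    calc ‖G y‖ * (‖P p‖ * ‖G p‖) = ‖P p‖ * ‖G y‖ * ‖G p‖ := by ring
      _ ≤ ‖P y‖ * ‖G y‖ * ‖G p‖ := by gcongr
      _ = ‖X y‖ * ‖G p‖ := by rw [h2]
      _ ≤ Real.exp B * ‖G p‖ := by gcongr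
  obtain ⟨hA, E, hE⟩ := base1 (F := fun w => G (p + w)) (ρ := ρ) (M := B + Real.log ‖G p‖ - Real.log ‖X p‖)
    (hG.comp (by fun_prop)) hρ (fun u hu => hGnz _ (by simpa using hu)) (fun w hw => hGb _ (by simpa using hw))
  simp only [add_zero] at hA hE
  refine ⟨S, deriv (fun w => G (p + w)) 0 / G p, fun z => E (z - p), hS, fun z hz => ?_⟩
  obtain ⟨h1, h2⟩ := hE (z - p) hz
  rw [add_sub_cancel] at h1
  constructor
  · have h3 : ∏ a ∈ S, ((z - a) / (p - a)) ^ analyticOrderNatAt X a = P z / P p := by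
      rw [hPe, hPe, ← Finset.prod_div_distrib]
      exact Finset.prod_congr rfl fun a _ => _root_.div_pow _ _ _
    rw [h3, hXG' z, h1, Complex.exp_add, hXG' p]
    field_simp
  · refine h2.trans ?_
    apply mul_le_mul_of_nonneg_right _ (sq_nonneg _)
    have := neg_abs_le (Real.log ‖X p‖)
    linarith

/-- the growth -/
theorem growth {X : ℂ → ℂ} (hX : Differentiable ℂ X)
    (gr : ∀ δ : ℝ, 0 < δ → ∃ K : ℝ, 0 < K ∧ ∀ z : ℂ, ‖X z‖ ≤ K * Real.exp (δ * ‖z‖ ^ 2)) :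
    ∃ M : ℕ → ℝ, (∀ N, 0 ≤ M N) ∧ (∀ (N : ℕ) z, ‖z - 1‖ = 2 * ((N : ℝ) + 1) → ‖X z‖ ≤ Real.exp (M N)) ∧
      ∀ δ : ℝ, 0 < δ → ∃ K : ℝ, 0 ≤ K ∧ ∀ N : ℕ, M N ≤ K + δ * (1 + 2 * ((N : ℝ) + 1)) ^ 2 := by
  have h0 : ∀ N : ℕ, ∃ y ∈ sphere (1 : ℂ) (2 * ((N : ℝ) + 1)), IsMaxOn (fun z => ‖X z‖)
      (sphere (1 : ℂ) (2 * ((N : ℝ) + 1))) y := fun N =>
    (isCompact_sphere _ _).exists_isMaxOn (NormedSpace.sphere_nonempty.2 (by positivity))
      hX.continuous.norm.continuousOn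
  choose y hy hmax using h0
  refine ⟨fun N => Real.log (1 + ‖X (y N)‖), fun N => Real.log_nonneg (by
    have := norm_nonneg (X (y N)); linarith), fun N z hz => ?_, fun δ hδ => ?_⟩
  · rw [Real.exp_log (by positivity)]
    have h1 := hmax N (show z ∈ sphere (1 : ℂ) (2 * ((N : ℝ) + 1)) by rw [mem_sphere, dist_eq_norm]; exact hz)
    have h2 : ‖X z‖ ≤ ‖X (y N)‖ := h1
    linarith
  · obtain ⟨K, hK, hKb⟩ := gr δ hδ
    refine ⟨Real.log (1 + K), Real.log_nonneg (by linarith), fun N => ?_⟩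
    have h1 := hKb (y N)
    have h2 : ‖y N‖ ≤ 1 + 2 * ((N : ℝ) + 1) := by
      have h3 := hy N
      rw [mem_sphere, dist_eq_norm] at h3
      have h4 := norm_add_le (y N - 1) 1
      rw [sub_add_cancel, norm_one] at h4
      linarith
    have h5 : Real.exp (δ * ‖y N‖ ^ 2) ≤ Real.exp (δ * (1 + 2 * ((N : ℝ) + 1)) ^ 2) := by
      apply Real.exp_le_exp.2
      gcongr
    have h6 : (1 : ℝ) ≤ Real.exp (δ * (1 + 2 * ((N : ℝ) + 1)) ^ 2) := by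
      rw [← Real.exp_zero]
      apply Real.exp_le_exp.2
      positivity
    have h7 : 1 + ‖X (y N)‖ ≤ (1 + K) * Real.exp (δ * (1 + 2 * ((N : ℝ) + 1)) ^ 2) := by
      have h8 := mul_le_mul_of_nonneg_left h5 hK.le
      linarith
    have h8 : Real.log (1 + ‖X (y N)‖) ≤ Real.log ((1 + K) * Real.exp (δ * (1 + 2 * ((N : ℝ) + 1)) ^ 2)) :=
      Real.log_le_log (by positivity) h7
    rwa [Real.log_mul (by positivity) (Real.exp_pos _).ne', Real.log_exp] at h8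

theorem lim1 {M : ℕ → ℝ}
    (hM : ∀ δ : ℝ, 0 < δ → ∃ K : ℝ, 0 ≤ K ∧ ∀ N : ℕ, M N ≤ K + δ * (1 + 2 * ((N : ℝ) + 1)) ^ 2)
    {r c : ℝ} (hr : 0 < r) (hc : 0 ≤ c) {ε : ℝ} (hε : 0 < ε) :
    ∀ᶠ N : ℕ in atTop, r < ((N : ℝ) + 1) / 2 ∧ 16 * (M N + c) * (r / ((N : ℝ) + 1)) ^ 2 < ε := by
  have hδ : 0 < ε / (288 * r ^ 2) := by positivity
  obtain ⟨K, hK, hKb⟩ := hM _ hδ
  have t1 : Tendsto (fun N : ℕ => (N : ℝ) + 1) atTop atTop :=
    tendsto_atTop_add_const_right _ _ tendsto_natCast_atTop_atTop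
  have t2 : Tendsto (fun N : ℕ => 16 * (K + c) * r ^ 2 * ((N : ℝ) + 1)⁻¹) atTop (𝓝 0) := by
    have a2 := tendsto_inv_atTop_zero.comp t1
    simpa using a2.const_mul (16 * (K + c) * r ^ 2)
  filter_upwards [t1.eventually_gt_atTop (2 * r), t2.eventually (gt_mem_nhds (half_pos hε))] with N h2 h3
  refine ⟨by linarith, ?_⟩
  obtain ⟨m, hm⟩ : ∃ m : ℝ, m = (N : ℝ) + 1 := ⟨_, rfl⟩
  have h4 := hKb N
  rw [← hm] at h2 h3 h4 ⊢
  have hm1 : 1 ≤ m := by rw [hm]; linarith [Nat.cast_nonneg (α := ℝ) N]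
  have hm0 : 0 < m := by linarith
  have h5 : (1 + 2 * m) ^ 2 ≤ 9 * m ^ 2 := by nlinarith
  have h6 : M N + c ≤ (K + c) + ε / (288 * r ^ 2) * (9 * m ^ 2) := by
    have := mul_le_mul_of_nonneg_left h5 hδ.le
    linarith
  have h7 : 16 * (M N + c) * (r / m) ^ 2 ≤ 16 * ((K + c) + ε / (288 * r ^ 2) * (9 * m ^ 2)) * (r / m) ^ 2 := by
    apply mul_le_mul_of_nonneg_right _ (sq_nonneg _)
    linarith
  have h8 : 16 * ((K + c) + ε / (288 * r ^ 2) * (9 * m ^ 2)) * (r / m) ^ 2 =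
      16 * (K + c) * r ^ 2 * (1 / m ^ 2) + ε / 2 := by
    field_simp
    ring
  have h9 : 1 / m ^ 2 ≤ m⁻¹ := by
    rw [inv_eq_one_div]
    apply one_div_le_one_div_of_le hm0
    nlinarith
  have h10 : 16 * (K + c) * r ^ 2 * (1 / m ^ 2) ≤ 16 * (K + c) * r ^ 2 * m⁻¹ :=
    mul_le_mul_of_nonneg_left h9 (by positivity)
  linarith

/-- the genus one products converge -/
theorem had_pf {X : ℂ → ℂ} (hX : Differentiable ℂ X)
    (gr : ∀ δ : ℝ, 0 < δ → ∃ K : ℝ, 0 < K ∧ ∀ z : ℂ, ‖X z‖ ≤ K * Real.exp (δ * ‖z‖ ^ 2)) (hp : X 1 ≠ 0) :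
    ∃ (S : ℕ → Finset ℂ) (β : ℕ → ℂ), (∀ N z, z ∈ S N ↔ X z = 0 ∧ ‖z - 1‖ ≤ (N : ℝ) + 1) ∧
      TendstoLocallyUniformly (fun (N : ℕ) (z : ℂ) => X 1 * (∏ a ∈ S N, ((z - a) / (1 - a)) ^
        analyticOrderNatAt X a) * cexp (β N * (z - 1))) X atTop := by
  obtain ⟨M, hM0, hM1, hM2⟩ := growth hX gr
  choose S β E h1 h2 using fun N => had_step hX 1 hp N (hM1 N)
  refine ⟨S, β, h1, ?_⟩
  rw [Metric.tendstoLocallyUniformly_iff]
  intro ε hε x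
  obtain ⟨r, hr⟩ : ∃ r : ℝ, r = ‖x - 1‖ + 1 := ⟨_, rfl⟩
  have hr0 : 0 < r := by rw [hr]; positivity
  obtain ⟨B0, hB0'⟩ := (isCompact_closedBall (1 : ℂ) r).exists_bound_of_continuousOn hX.continuous.continuousOn
  obtain ⟨B, hB⟩ : ∃ B : ℝ, B = |B0| + 1 := ⟨_, rfl⟩
  have hB0 : 0 < B := by rw [hB]; positivity
  refine ⟨ball 1 r, ?_, ?_⟩
  · apply isOpen_ball.mem_nhds
    rw [mem_ball, dist_eq_norm, hr]
    linarith
  have hδ : 0 < min 1 (ε / (2 * B)) := by positivity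
  filter_upwards [lim1 hM2 hr0 (abs_nonneg (Real.log ‖X 1‖)) hδ] with N hN
  intro y hy
  have hyr : ‖y - 1‖ < r := by rwa [mem_ball, dist_eq_norm] at hy
  obtain ⟨hN1, hN2⟩ := hN
  obtain ⟨h3, h4⟩ := h2 N y (hyr.trans hN1)
  have hN0 : 0 < (N : ℝ) + 1 := by positivity
  have h5 : (‖y - 1‖ / ((N : ℝ) + 1)) ^ 2 ≤ (r / ((N : ℝ) + 1)) ^ 2 :=
    pow_le_pow_left₀ (by positivity) (div_le_div_of_nonneg_right hyr.le hN0.le) 2
  have h6 : 0 ≤ 16 * (M N + |Real.log ‖X 1‖|) := by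
    have := hM0 N
    positivity
  have h7 : ‖E N y‖ < min 1 (ε / (2 * B)) := by
    refine lt_of_le_of_lt h4 ?_
    have := mul_le_mul_of_nonneg_left h5 h6
    linarith
  have h8 : ‖E N y‖ < 1 := h7.trans_le (min_le_left _ _)
  have h9 : ‖E N y‖ < ε / (2 * B) := h7.trans_le (min_le_right _ _)
  obtain ⟨Φ, hΦ⟩ : ∃ Φ : ℂ, Φ = X 1 * (∏ a ∈ S N, ((y - a) / (1 - a)) ^ analyticOrderNatAt X a) *
    cexp (β N * (y - 1)) := ⟨_, rfl⟩
  rw [← hΦ] at h3 ⊢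
  have h10 : Φ = X y * cexp (-(E N y)) := by
    rw [h3, mul_assoc, ← Complex.exp_add]
    simp
  rw [dist_eq_norm, h10]
  have h11 : X y - X y * cexp (-(E N y)) = -(X y * (cexp (-(E N y)) - 1)) := by ring
  rw [h11, norm_neg, norm_mul]
  have h12 : ‖cexp (-(E N y)) - 1‖ ≤ 2 * ‖-(E N y)‖ :=
    Complex.norm_exp_sub_one_le (by rw [norm_neg]; exact h8.le)
  rw [norm_neg] at h12
  have h13 : ‖X y‖ ≤ B := by
    have h14 := hB0' y (ball_subset_closedBall hy)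
    rw [hB]
    have := le_abs_self B0
    linarith
  calc ‖X y‖ * ‖cexp (-(E N y)) - 1‖ ≤ B * (2 * ‖E N y‖) :=
        mul_le_mul h13 h12 (norm_nonneg _) hB0.le
    _ < B * (2 * (ε / (2 * B))) := by
        apply mul_lt_mul_of_pos_left _ hB0
        linarith
    _ = ε := by field_simp

/-- lower bound for the distance to the points of the strip -/
theorem dist_low (z : ℂ) (hz : 1 / 2 < |z.re|) : ∃ C : ℝ, 0 < C ∧ ∀ a : ℂ, |a.re| ≤ 1 / 2 →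
    1 + ‖a‖ ^ 2 ≤ C * ‖z - a‖ ^ 2 := by
  obtain ⟨d, hd⟩ : ∃ d : ℝ, d = |z.re| - 1 / 2 := ⟨_, rfl⟩
  have hd0 : 0 < d := by rw [hd]; linarith
  have hd2 : 0 < d ^ 2 := by positivity
  refine ⟨(1 + 2 * ‖z‖ ^ 2) / d ^ 2 + 2, by positivity, fun a ha => ?_⟩
  have h1 : d ≤ ‖z - a‖ := by
    have h2 := Complex.abs_re_le_norm (z - a)
    rw [sub_re] at h2
    have h3 := abs_sub_abs_le_abs_sub z.re a.re
    linarith
  have h2 : d ^ 2 ≤ ‖z - a‖ ^ 2 := pow_le_pow_left₀ hd0.le h1 2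
  have h3 : ‖a‖ ≤ ‖z‖ + ‖z - a‖ := by
    have h4 := norm_sub_le z (z - a)
    rwa [sub_sub_cancel] at h4
  have h4 : ‖a‖ ^ 2 ≤ 2 * ‖z‖ ^ 2 + 2 * ‖z - a‖ ^ 2 := by
    have h5 := pow_le_pow_left₀ (norm_nonneg a) h3 2
    nlinarith [sq_nonneg (‖z‖ - ‖z - a‖)]
  have h5 : (1 + 2 * ‖z‖ ^ 2) / d ^ 2 * d ^ 2 = 1 + 2 * ‖z‖ ^ 2 := div_mul_cancel₀ _ hd2.ne'
  have h6 : (1 + 2 * ‖z‖ ^ 2) / d ^ 2 * d ^ 2 ≤ (1 + 2 * ‖z‖ ^ 2) / d ^ 2 * ‖z - a‖ ^ 2 :=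
    mul_le_mul_of_nonneg_left h2 (by positivity)
  linarith

theorem sub_ne {z a : ℂ} (hz : 1 / 2 < |z.re|) (ha : |a.re| ≤ 1 / 2) : z - a ≠ 0 := by
  intro h
  rw [sub_eq_zero] at h
  rw [h] at hz
  linarith

/-- bound of the terms -/
theorem term_bound (z w : ℂ) (hz : 1 / 2 < |z.re|) (hw : 1 / 2 < |w.re|) :
    ∃ C : ℝ, 0 < C ∧ ∀ a : ℂ, |a.re| ≤ 1 / 2 → ‖1 / (z - a) - 1 / (w - a)‖ ≤ C / (1 + ‖a‖ ^ 2) := by
  obtain ⟨C1, hC1, h1⟩ := dist_low z hz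
  obtain ⟨C2, hC2, h2⟩ := dist_low w hw
  refine ⟨(‖w - z‖ + 1) * (C1 + C2), by positivity, fun a ha => ?_⟩
  have hz' := sub_ne hz ha
  have hw' := sub_ne hw ha
  have e : 1 / (z - a) - 1 / (w - a) = (w - z) / ((z - a) * (w - a)) := by
    field_simp
    ring
  have hg : 0 < 1 + ‖a‖ ^ 2 := by positivity
  have a1 := h1 a ha
  have a2 := h2 a ha
  have p1 : 0 < ‖z - a‖ := norm_pos_iff.2 hz'
  have p2 : 0 < ‖w - a‖ := norm_pos_iff.2 hw'
  rw [e, norm_div, norm_mul, div_le_div_iff₀ (by positivity) hg]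
  have key : 1 + ‖a‖ ^ 2 ≤ (C1 + C2) * (‖z - a‖ * ‖w - a‖) := by
    rcases le_total ‖z - a‖ ‖w - a‖ with h | h
    · have h3 : ‖z - a‖ ^ 2 ≤ ‖z - a‖ * ‖w - a‖ := by nlinarith
      have h4 : 0 ≤ C2 * (‖z - a‖ * ‖w - a‖) := by positivity
      nlinarith
    · have h3 : ‖w - a‖ ^ 2 ≤ ‖z - a‖ * ‖w - a‖ := by nlinarith
      have h4 : 0 ≤ C1 * (‖z - a‖ * ‖w - a‖) := by positivity
      nlinarith
  have hn : 0 ≤ ‖w - z‖ := norm_nonneg _
  calc ‖w - z‖ * (1 + ‖a‖ ^ 2) ≤ (‖w - z‖ + 1) * (1 + ‖a‖ ^ 2) := by gcongr; linarith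
    _ ≤ (‖w - z‖ + 1) * ((C1 + C2) * (‖z - a‖ * ‖w - a‖)) := by gcongr
    _ = _ := by ring

/-- the real part of `2/(1-a²)` in the strip -/
theorem re_low (a : ℂ) (ha : |a.re| ≤ 1 / 2) : (6 / 7) / (1 + ‖a‖ ^ 2) ≤ (2 / (1 - a ^ 2)).re := by
  obtain ⟨x, hx⟩ : ∃ x : ℝ, x = a.re := ⟨_, rfl⟩
  obtain ⟨y, hy⟩ : ∃ y : ℝ, y = a.im := ⟨_, rfl⟩
  have h1 : ‖a‖ ^ 2 = x ^ 2 + y ^ 2 := by
    rw [← Complex.normSq_eq_norm_sq, Complex.normSq_apply, hx, hy]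
    ring
  have hx2 : x ^ 2 ≤ 1 / 4 := by
    rw [← hx, abs_le] at ha
    nlinarith [ha.1, ha.2]
  have hre : (1 - a ^ 2).re = 1 - x ^ 2 + y ^ 2 := by
    rw [hx, hy, sub_re, one_re, sq, mul_re]
    ring
  have him : (1 - a ^ 2).im = -(2 * x * y) := by
    rw [hx, hy, sub_im, one_im, sq, mul_im]
    ring
  obtain ⟨Q, hQ⟩ : ∃ Q : ℝ, Q = 1 - x ^ 2 + y ^ 2 := ⟨_, rfl⟩
  have hQ1 : 3 / 4 ≤ Q := by rw [hQ]; nlinarith [sq_nonneg y]
  have hns : Complex.normSq (1 - a ^ 2) = Q ^ 2 + 4 * x ^ 2 * y ^ 2 := by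
    rw [Complex.normSq_apply, hre, him, hQ]
    ring
  have hre2 : (2 / (1 - a ^ 2)).re = 2 * Q / (Q ^ 2 + 4 * x ^ 2 * y ^ 2) := by
    rw [Complex.div_re, hns, hre, him, ← hQ]
    simp
  rw [hre2, h1]
  have hy0 := sq_nonneg y
  have hx0 := sq_nonneg x
  have h2 : Q ^ 2 + 4 * x ^ 2 * y ^ 2 ≤ 7 / 3 * Q ^ 2 := by
    have h3 : 4 * x ^ 2 * y ^ 2 ≤ y ^ 2 := by nlinarith
    have h4 : y ^ 2 ≤ Q := by rw [hQ]; linarith
    nlinarith
  have h3 : 0 < Q ^ 2 + 4 * x ^ 2 * y ^ 2 := by positivity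
  rw [div_le_div_iff₀ (by positivity) h3]
  have h4 : Q ≤ 1 + (x ^ 2 + y ^ 2) := by rw [hQ]; linarith
  calc 6 / 7 * (Q ^ 2 + 4 * x ^ 2 * y ^ 2) ≤ 6 / 7 * (7 / 3 * Q ^ 2) := by linarith
    _ = 2 * Q * Q := by ring
    _ ≤ 2 * Q * (1 + (x ^ 2 + y ^ 2)) := by
        apply mul_le_mul_of_nonneg_left h4
        linarith

theorem pf_ab (D : Dat) : Summable (fun a : ℂ => (D.m a : ℝ) / (1 + ‖a‖ ^ 2)) ∧
    ∀ z w : ℂ, 1 / 2 < |z.re| → 1 / 2 < |w.re| → logDeriv D.X z - logDeriv D.X w =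
      ∑' a : ℂ, (D.m a : ℂ) * (1 / (z - a) - 1 / (w - a)) := by
  classical
  have hX := D.diff
  have hnz : ∀ z : ℂ, 1 / 2 < |z.re| → D.X z ≠ 0 := fun z h h0 => absurd (D.strip z h0) (not_le.2 h)
  have h1ne : D.X 1 ≠ 0 := hnz 1 (by norm_num)
  obtain ⟨S, β, hS, hlim⟩ := had_pf hX D.gr h1ne
  have hmd : ∀ a, analyticOrderNatAt D.X a = D.m a := fun a => rfl
  simp only [hmd] at hlim
  have hm0 : ∀ a : ℂ, D.X a ≠ 0 → D.m a = 0 := by
    intro a h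
    rw [Dat.m, analyticOrderNatAt, (hX.analyticAt _).analyticOrderAt_eq_zero.2 h]
    rfl
  have hSs : ∀ N, ∀ a ∈ S N, |a.re| ≤ 1 / 2 := fun N a ha => D.strip a ((hS N a).1 ha).1
  -- the logarithmic derivative of the approximations
  have hld : ∀ (N : ℕ) (z : ℂ), 1 / 2 < |z.re| → logDeriv (fun z : ℂ => D.X 1 * (∏ a ∈ S N, ((z - a) / (1 - a)) ^
      D.m a) * cexp (β N * (z - 1))) z = ∑ a ∈ S N, (D.m a : ℂ) * (1 / (z - a)) + β N := by
    intro N z hz0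
    have hza : ∀ a ∈ S N, z - a ≠ 0 := fun a ha => sub_ne hz0 (hSs N a ha)
    have h1a : ∀ a ∈ S N, (1 : ℂ) - a ≠ 0 := fun a ha => sub_ne (by norm_num) (hSs N a ha)
    have hP0 : (∏ a ∈ S N, ((z - a) / (1 - a)) ^ D.m a) ≠ 0 := by
      rw [Finset.prod_ne_zero_iff]
      exact fun a ha => pow_ne_zero _ (div_ne_zero (hza a ha) (h1a a ha))
    have hmul := logDeriv_mul (f := fun z : ℂ => D.X 1 * (∏ a ∈ S N, ((z - a) / (1 - a)) ^ D.m a))
      (g := fun z : ℂ => cexp (β N * (z - 1))) z (mul_ne_zero h1ne hP0) (Complex.exp_ne_zero _) (by fun_prop)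
      (by fun_prop)
    rw [logDeriv_const_mul z _ h1ne] at hmul
    refine hmul.trans ?_
    congr 1
    · rw [logDeriv_prod (f := fun a z => ((z - a) / (1 - a)) ^ D.m a)
        (fun a ha => pow_ne_zero _ (div_ne_zero (hza a ha) (h1a a ha))) (fun a _ => by fun_prop)]
      refine Finset.sum_congr rfl fun a ha => ?_
      rw [logDeriv_fun_pow (by fun_prop)]
      congr 1
      have h3 := h1a a ha
      have h4 := hza a ha
      have h5 : HasDerivAt (fun z : ℂ => (z - a) / (1 - a)) (1 / (1 - a)) z :=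
        ((hasDerivAt_id z).sub_const a).div_const (1 - a)
      rw [logDeriv_apply, h5.deriv]
      field_simp
    · have h5 : HasDerivAt (fun z : ℂ => cexp (β N * (z - 1))) (cexp (β N * (z - 1)) * (β N * 1)) z :=
        (((hasDerivAt_id z).sub_const 1).const_mul (β N)).cexp
      rw [logDeriv_apply, h5.deriv, mul_one, mul_div_cancel_left₀ _ (Complex.exp_ne_zero _)]
  have hlim1 : ∀ z : ℂ, 1 / 2 < |z.re| → Tendsto (fun N => ∑ a ∈ S N, (D.m a : ℂ) * (1 / (z - a)) + β N) atTop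
      (𝓝 (logDeriv D.X z)) := by
    intro z hz0
    have h1 := Complex.logDeriv_tendsto isOpen_univ (Set.mem_univ z)
      (hlim.tendstoLocallyUniformlyOn (s := Set.univ))
      (Eventually.of_forall fun n => by
        apply Differentiable.differentiableOn
        fun_prop) (hnz z hz0)
    exact h1.congr fun N => hld N z hz0
  have hlim2 : ∀ z w : ℂ, 1 / 2 < |z.re| → 1 / 2 < |w.re| → Tendsto (fun N => ∑ a ∈ S N, (D.m a : ℂ) *
      (1 / (z - a) - 1 / (w - a))) atTop (𝓝 (logDeriv D.X z - logDeriv D.X w)) := by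
    intro z w hz0 hw0
    refine ((hlim1 z hz0).sub (hlim1 w hw0)).congr fun N => ?_
    rw [add_sub_add_right_eq_sub, ← Finset.sum_sub_distrib]
    exact Finset.sum_congr rfl fun a _ => by ring
  -- summability
  have hsm : Summable (fun a : ℂ => (D.m a : ℝ) / (1 + ‖a‖ ^ 2)) := by
    have h1 := hlim2 1 (-1) (by norm_num) (by norm_num)
    obtain ⟨B, hB⟩ := (h1.norm.bddAbove_range)
    have hB' : ∀ N, ∑ a ∈ S N, (D.m a : ℝ) / (1 + ‖a‖ ^ 2) ≤ 7 / 6 * B := by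
      intro N
      have h2 : ‖∑ a ∈ S N, (D.m a : ℂ) * (1 / (1 - a) - 1 / (-1 - a))‖ ≤ B := hB ⟨N, rfl⟩
      have h3 : (∑ a ∈ S N, (D.m a : ℂ) * (1 / (1 - a) - 1 / (-1 - a))).re =
          ∑ a ∈ S N, (D.m a : ℝ) * (2 / (1 - a ^ 2)).re := by
        rw [Complex.re_sum]
        refine Finset.sum_congr rfl fun a ha => ?_
        have e1 : (1 : ℂ) - a ≠ 0 := sub_ne (by norm_num) (hSs N a ha)
        have e2 : (-1 : ℂ) - a ≠ 0 := sub_ne (by norm_num) (hSs N a ha)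
        have e3 : (1 : ℂ) - a ^ 2 ≠ 0 := by
          have : (1 : ℂ) - a ^ 2 = -((1 - a) * (-1 - a)) := by ring
          rw [this]
          exact neg_ne_zero.2 (mul_ne_zero e1 e2)
        have e4 : 1 / (1 - a) - 1 / (-1 - a) = 2 / (1 - a ^ 2) := by
          rw [div_sub_div _ _ e1 e2, div_eq_div_iff (mul_ne_zero e1 e2) e3]
          ring
        rw [e4, ← Complex.ofReal_natCast, Complex.re_ofReal_mul]
      have h4 : ∑ a ∈ S N, (D.m a : ℝ) * (2 / (1 - a ^ 2)).re ≤ B := by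
        rw [← h3]
        exact (Complex.re_le_norm _).trans h2
      have h5 : ∑ a ∈ S N, (D.m a : ℝ) / (1 + ‖a‖ ^ 2) ≤
          7 / 6 * ∑ a ∈ S N, (D.m a : ℝ) * (2 / (1 - a ^ 2)).re := by
        rw [Finset.mul_sum]
        refine Finset.sum_le_sum fun a ha => ?_
        have h6 := re_low a (hSs N a ha)
        have h7 : (D.m a : ℝ) * ((6 / 7) / (1 + ‖a‖ ^ 2)) ≤ (D.m a : ℝ) * (2 / (1 - a ^ 2)).re :=
          mul_le_mul_of_nonneg_left h6 (Nat.cast_nonneg _)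
        have h8 : (D.m a : ℝ) / (1 + ‖a‖ ^ 2) = 7 / 6 * ((D.m a : ℝ) * ((6 / 7) / (1 + ‖a‖ ^ 2))) := by ring
        rw [h8]
        linarith
      linarith
    refine summable_of_sum_le (c := 7 / 6 * B) (fun a => by positivity) fun u => ?_
    -- a large `N`
    obtain ⟨N, hN⟩ : ∃ N : ℕ, ∀ a ∈ u, ‖a - 1‖ ≤ (N : ℝ) + 1 := by
      obtain ⟨N, hN⟩ := exists_nat_ge (∑ a ∈ u, ‖a - 1‖)
      refine ⟨N, fun a ha => ?_⟩
      have := Finset.single_le_sum (f := fun a : ℂ => ‖a - 1‖) (fun a _ => norm_nonneg _) ha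
      linarith
    refine le_trans ?_ (hB' N)
    have h5 : ∑ a ∈ u, (D.m a : ℝ) / (1 + ‖a‖ ^ 2) = ∑ a ∈ u with a ∈ S N, (D.m a : ℝ) / (1 + ‖a‖ ^ 2) := by
      symm
      refine Finset.sum_subset (Finset.filter_subset _ _) fun a ha hn => ?_
      have h6 : D.X a ≠ 0 := by
        intro h0
        exact hn (Finset.mem_filter.2 ⟨ha, (hS N a).2 ⟨h0, hN a ha⟩⟩)
      rw [hm0 a h6]
      simp
    rw [h5]
    refine Finset.sum_le_sum_of_subset_of_nonneg (fun a ha => (Finset.mem_filter.1 ha).2) fun a _ _ => ?_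
    positivity
  refine ⟨hsm, ?_⟩
  -- the main formula
  intro z w hz0 hw0
  obtain ⟨C, hC, hCb⟩ := term_bound z w hz0 hw0
  have h1 : Tendsto (fun N : ℕ => ∑' a : ℂ, if ‖a - 1‖ ≤ (N : ℝ) + 1 then
      (D.m a : ℂ) * (1 / (z - a) - 1 / (w - a)) else 0) atTop
      (𝓝 (∑' a : ℂ, (D.m a : ℂ) * (1 / (z - a) - 1 / (w - a)))) := by
    refine tendsto_tsum_of_dominated_convergence (bound := fun a : ℂ => C * ((D.m a : ℝ) / (1 + ‖a‖ ^ 2)))
      (hsm.mul_left C) (fun a => ?_) (Eventually.of_forall fun N a => ?_)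
    · refine tendsto_const_nhds.congr' ?_
      have h2 : ∀ᶠ N : ℕ in atTop, ‖a - 1‖ ≤ (N : ℝ) + 1 := by
        obtain ⟨N0, hN0⟩ := exists_nat_ge ‖a - 1‖
        filter_upwards [eventually_ge_atTop N0] with N hN
        have : (N0 : ℝ) ≤ N := by exact_mod_cast hN
        linarith
      filter_upwards [h2] with N hN
      rw [if_pos hN]
    · have h3 : ‖(D.m a : ℂ) * (1 / (z - a) - 1 / (w - a))‖ ≤ C * ((D.m a : ℝ) / (1 + ‖a‖ ^ 2)) := by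
        by_cases h0 : D.X a = 0
        · rw [norm_mul, Complex.norm_natCast]
          calc (D.m a : ℝ) * ‖1 / (z - a) - 1 / (w - a)‖ ≤ (D.m a : ℝ) * (C / (1 + ‖a‖ ^ 2)) := by
                have := hCb a (D.strip a h0)
                gcongr
            _ = _ := by ring
        · rw [hm0 a h0]
          simp
      split_ifs
      · exact h3
      · rw [norm_zero]
        positivity
  refine tendsto_nhds_unique (hlim2 z w hz0 hw0) (h1.congr fun N => ?_)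
  rw [tsum_eq_sum (s := S N)]
  · refine Finset.sum_congr rfl fun a ha => ?_
    rw [if_pos ((hS N a).1 ha).2]
  · intro a ha
    split_ifs with h4
    · rw [hm0 a fun h0 => ha ((hS N a).2 ⟨h0, h4⟩)]
      simp
    · rfl

theorem m_zero (D : Dat) {a : ℂ} (h : ¬ |a.re| ≤ 1 / 2) : D.m a = 0 := by
  rw [Dat.m, analyticOrderNatAt, (D.diff.analyticAt _).analyticOrderAt_eq_zero.2 fun h0 => h (D.strip a h0)]
  rfl

/-- distance to the strip, near `1` -/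
theorem dist_one {z a : ℂ} (hz : z ∈ ball (1 : ℂ) (1 / 4)) (ha : |a.re| ≤ 1 / 2) : 1 + ‖a‖ ^ 2 ≤ 68 * ‖z - a‖ ^ 2 := by
  rw [mem_ball, dist_eq_norm] at hz
  have h1 : 1 / 4 ≤ ‖z - a‖ := by
    have h2 := Complex.abs_re_le_norm (z - 1)
    rw [sub_re, one_re] at h2
    have h3 := Complex.re_le_norm (z - a)
    rw [sub_re] at h3
    have h4 := (abs_le.1 h2).1
    have h5 := (abs_le.1 ha).2
    linarith
  have h2 : (1 / 4) ^ 2 ≤ ‖z - a‖ ^ 2 := pow_le_pow_left₀ (by norm_num) h1 2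
  have h6 : ‖z‖ ≤ 5 / 4 := by
    have h7 := norm_add_le (z - 1) 1
    rw [sub_add_cancel, norm_one] at h7
    linarith
  have h3 : ‖a‖ ≤ 5 / 4 + ‖z - a‖ := by
    have h4 := norm_sub_le z (z - a)
    rw [sub_sub_cancel] at h4
    linarith
  have h4 : ‖a‖ ^ 2 ≤ 2 * (5 / 4) ^ 2 + 2 * ‖z - a‖ ^ 2 := by
    have h5 := pow_le_pow_left₀ (norm_nonneg a) h3 2
    nlinarith [sq_nonneg (5 / 4 - ‖z - a‖)]
  linarith

theorem re_ball {z : ℂ} (hz : z ∈ ball (1 : ℂ) (1 / 4)) : 1 / 2 < |z.re| := by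
  rw [mem_ball, dist_eq_norm] at hz
  have h2 := Complex.abs_re_le_norm (z - 1)
  rw [sub_re, one_re] at h2
  have h4 := (abs_le.1 h2).1
  exact lt_of_lt_of_le (by linarith) (le_abs_self _)

theorem pf : S_PF := by
  intro D
  obtain ⟨hA, hB⟩ := pf_ab D
  refine ⟨hA, hB, ?_⟩
  have h1 : HasDerivAt (fun z => ∑' a : ℂ, (D.m a : ℂ) * (1 / (z - a) - 1 / (1 - a)))
      (∑' a : ℂ, (D.m a : ℂ) * (-1 / (1 - a) ^ 2)) 1 := by
    refine hasDerivAt_tsum_of_isPreconnected (u := fun a : ℂ => 68 * ((D.m a : ℝ) / (1 + ‖a‖ ^ 2)))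
      (t := ball (1 : ℂ) (1 / 4)) (y₀ := 1) (g' := fun a z => (D.m a : ℂ) * (-1 / (z - a) ^ 2))
      (hA.mul_left 68) isOpen_ball (convex_ball _ _).isPreconnected ?_ ?_ (mem_ball_self (by norm_num)) ?_
      (mem_ball_self (by norm_num))
    · intro a z hz
      by_cases ha : |a.re| ≤ 1 / 2
      · have h2 : z - a ≠ 0 := sub_ne (re_ball hz) ha
        have h3 : HasDerivAt (fun z : ℂ => 1 / (z - a)) (-1 / (z - a) ^ 2) z := by
          have h4 : HasDerivAt (fun z : ℂ => z - a) 1 z := (hasDerivAt_id z).sub_const a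
          have h5 := h4.fun_inv h2
          simpa [one_div] using h5
        exact (h3.sub_const _).const_mul _
      · rw [m_zero D ha]
        simpa using hasDerivAt_const z (0 : ℂ)
    · intro a z hz
      by_cases ha : |a.re| ≤ 1 / 2
      · have h2 : z - a ≠ 0 := sub_ne (re_ball hz) ha
        have h3 := dist_one hz ha
        rw [norm_mul, Complex.norm_natCast, norm_div, norm_neg, norm_one, norm_pow]
        have e : 68 * ((D.m a : ℝ) / (1 + ‖a‖ ^ 2)) = (D.m a : ℝ) * (68 / (1 + ‖a‖ ^ 2)) := by ring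
        rw [e]
        apply mul_le_mul_of_nonneg_left _ (Nat.cast_nonneg _)
        have h4 : 0 < ‖z - a‖ := norm_pos_iff.2 h2
        rw [div_le_div_iff₀ (by positivity) (by positivity)]
        linarith
      · rw [m_zero D ha]
        simp
    · refine (summable_zero).congr fun a => ?_
      simp
  have h2 : (fun z => logDeriv D.X 1 + ∑' a : ℂ, (D.m a : ℂ) * (1 / (z - a) - 1 / (1 - a))) =ᶠ[𝓝 1] logDeriv D.X := by
    filter_upwards [isOpen_ball.mem_nhds (mem_ball_self (show (0 : ℝ) < 1 / 4 by norm_num))] with z hz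
    rw [← hB z 1 (re_ball hz) (by norm_num)]
    ring
  exact (h1.const_add (logDeriv D.X 1)).congr_of_eventuallyEq h2.symm

end Pool.Agent.Q96.NF
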